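import Pool.Agent.N926.F54.R
import Pool.Agent.N926.F54.G
import Pool.Agent.N926.F54.F

set_option autoImplicit false

namespace Pool.Agent.Results.MP_54d89f_nt.AllItems

open Finset

/-- `r ≡ s (mod p^m)`: `r - s = p^m u` with `u` a rational whose denominator is prime to `p` -/
def Congr (p m : ℕ) (r s : ℚ) : Prop := ∃ u : ℚ, ¬ p ∣ u.den ∧ r - s = (p : ℚ) ^ m * u

/-- `S_0(p) = ∑_{k=0}^{p-1} C(2k,k)^3 / 16^k` -/
def S0 (p : ℕ) : ℚ := ∑ k ∈ range p, ((2 * k).choose k : ℚ) ^ 3 / 16 ^ k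

/-- `S_1(p) = ∑_{k=0}^{p-1} k C(2k,k)^3 / 16^k` -/
def S1 (p : ℕ) : ℚ := ∑ k ∈ range p, (k : ℚ) * ((2 * k).choose k : ℚ) ^ 3 / 16 ^ k

/-- the Euler numbers: `E_0 = 1` and `E_n = -∑_{0 ≤ i < n, 2 ∣ n-i} C(n,i) E_i` for `n ≥ 1` -/
def euler : ℕ → ℤ
  | 0 => 1
  | (n+1) => - ∑ i : Fin (n+1),
      if 2 ∣ (n + 1 - (i:ℕ)) then ((n+1).choose (i:ℕ) : ℤ) * euler (i:ℕ) else 0

open Pool.Agent.N926.F54 in
theorem euler_eq (n : ℕ) : euler n = eulerZ n := by
  induction n using Nat.strong_induction_on with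
  | _ n ih =>
    rcases n with _ | n
    · rw [euler, eulerZ]
    · rw [euler, eulerZ]
      congr 1
      refine sum_congr rfl fun i _ => ?_
      rw [ih i i.2]

open Pool.Agent.N926.F54 in
theorem euler_rec (n : ℕ) (hn : 1 ≤ n) :
    ∑ k ∈ (range (n+1)).filter (fun k => 2 ∣ k), (n.choose k : ℤ) * euler (n-k) = 0 := by
  have h := eulerZ_sum (n := n) (by omega)
  rw [← sum_range_reflect] at h
  rw [sum_filter]
  refine Eq.trans ?_ h
  refine sum_congr rfl fun k hk => ?_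
  rw [mem_range] at hk
  rw [show n + 1 - 1 - k = n - k by omega, show n - (n-k) = k by omega, Nat.choose_symm (by omega), euler_eq]

open Pool.Agent.N926.F54 Pool.Agent.N926.Sup2 Pool.Agent.N926.Sup

theorem t_pow (k : ℕ) : t k ^ 3 * 4^k = ((2 * k).choose k : ℚ) ^ 3 / 16 ^ k := by
  unfold t
  rw [Nat.centralBinom, div_pow, show (16:ℚ) = 4^2 by norm_num, ← pow_mul, ← pow_mul]
  have h : (4:ℚ)^(k*3) = 4^k * 4^(2*k) := by rw [← pow_add]; congr 1; ring
  rw [h]
  have : (4:ℚ)^k ≠ 0 := by positivity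
  field_simp

theorem S0_eq (p : ℕ) : S0 p = Pool.Agent.N926.F54.S0 p := by
  unfold S0 Pool.Agent.N926.F54.S0
  exact sum_congr rfl fun k _ => (t_pow k).symm

theorem B_eq (n : ℕ) : B n = ∑ k ∈ range n, (3 * (k : ℚ) + 1) / 16 ^ k * ((2 * k).choose k : ℚ) ^ 3 := by
  unfold B
  refine sum_congr rfl fun k _ => ?_
  rw [mul_assoc, t_pow]
  ring

theorem S1_eq (p : ℕ) : 3 * S1 p = B p - S0 p := by
  rw [B_eq]
  unfold S0 S1
  rw [mul_sum, ← sum_sub_distrib]
  refine sum_congr rfl fun k _ => ?_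
  ring

theorem B_mod {p : ℕ} [Fact p.Prime] (h2 : p ≠ 2) (h3 : p ≠ 3) {h : ℕ} (hh : p = 2*h+1) :
    Dv p 2 (B p - p) := by
  have h4 := mul_P (p := p) (s := 0) (P := (p:ℚ)) (x := B p) (y := (1 + (7/6) * p^3 * bernoulli (p-3)))
    (by simp) (by
      have := B_final (p := p) (s := 0) (M := h) h2 h3 (by simpa using hh) hh
      rw [← hh] at this
      have e : (2*(h:ℚ)+1) = p := by rw [hh]; push_cast; ring
      rw [e] at this
      exact this)
  have hp5 : 5 ≤ p := by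
    have := (Fact.out : p.Prime).two_le
    omega
  have b := bern_int (p := p) (p-3) (by omega)
  have v6 : padicValRat p (6:ℚ) = 0 := by
    have h6 : ¬ p ∣ 6 := by
      intro hd
      have hp : p.Prime := Fact.out
      have : p ∣ 2 * 3 := hd
      rcases (hp.dvd_mul).1 this with h | h
      · exact h2 ((Nat.prime_dvd_prime_iff_eq hp Nat.prime_two).1 h)
      · exact h3 ((Nat.prime_dvd_prime_iff_eq hp Nat.prime_three).1 h)
    have := unit_nat h6
    simpa using this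
  have c : Dv p 0 ((7/6 : ℚ)) := by
    have := (Dv.nat (p := p) 7).div_unit v6
    simpa using this
  have d : Dv p 2 ((p:ℚ)^4 * ((7/6) * bernoulli (p-3))) := ((Dv.p_pow 4).mul0 (c.mul0 b)).mono (by norm_num)
  have := (h4.mono (by norm_num : (2:ℤ) ≤ ((0+1+4 : ℕ) : ℤ))).add d
  refine Dv_eq ?_ this
  ring

/-- **Items 1 to 5**: all of them hold. -/
theorem result :
    -- Euler numbers
    (euler 0 = 1 ∧ ∀ n : ℕ, 1 ≤ n →
      ∑ k ∈ (range (n+1)).filter (fun k => 2 ∣ k), (n.choose k : ℤ) * euler (n-k) = 0) ∧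
    (∀ (p : ℕ) [Fact p.Prime], 3 < p →
      -- item 1
      (p % 6 = 1 → (∃ x y : ℤ, (p : ℤ) = x ^ 2 + 3 * y ^ 2) ∧
        ∀ x y : ℤ, (p : ℤ) = x ^ 2 + 3 * y ^ 2 →
          Congr p 2 (S0 p) (4 * (x : ℚ) ^ 2 - 2 * p) ∧
          Congr p 2 (S1 p) (p - 4 * (x : ℚ) ^ 2 / 3)) ∧
      -- item 2
      (p % 6 = 5 → Congr p 2 (S1 p) ((p : ℚ) / 3)) ∧
      -- item 3
      (∀ a : ℕ, 1 ≤ a →
        Congr p 4
          ((1 / (p : ℚ) ^ a) * ∑ k ∈ range (p ^ a),
            (3 * (k : ℚ) + 1) / 16 ^ k * ((2 * k).choose k : ℚ) ^ 3)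
          (1 + 7 / 6 * (p : ℚ) ^ 3 * bernoulli (p - 3))) ∧
      -- item 4
      Congr p 4
        (∑ k ∈ range ((p - 1) / 2 + 1), (3 * (k : ℚ) + 1) * (((2 * k).choose k : ℚ) ^ 3 / 16 ^ k))
        (p + 2 * (legendreSym p (-1) : ℚ) * (p : ℚ) ^ 3 * (euler (p - 3) : ℚ))) ∧
    -- item 5
    (∀ n : ℕ, 2 ≤ n → ∃ m : ℤ,
      (1 / (2 * (n : ℚ) * ((2 * n).choose n : ℚ))) *
        ∑ k ∈ range n, (3 * (k : ℚ) + 1) * ((2 * k).choose k : ℚ) ^ 3 * 16 ^ (n - 1 - k) = m) := by
  refine ⟨⟨by rw [euler], euler_rec⟩, ?_, ?_⟩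
  · intro p hp p3
    have h2 : p ≠ 2 := by omega
    have h3 : p ≠ 3 := by omega
    obtain ⟨h, hh⟩ := hp.out.odd_of_ne_two h2
    have v3 : padicValRat p (3:ℚ) = 0 := by
      have : ¬ p ∣ 3 := fun hd => h3 ((Nat.prime_dvd_prime_iff_eq hp.out Nat.prime_three).1 hd)
      have := unit_nat this
      simpa using this
    have bm := B_mod (p := p) h2 h3 hh
    refine ⟨?_, ?_, ?_, ?_⟩
    · intro h6
      obtain ⟨i, hi⟩ : ∃ i, p = 6*i+1 := ⟨p/6, by omega⟩
      have i1 : 1 ≤ i := by omega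
      refine ⟨?_, ?_⟩
      · obtain ⟨X, Y, -, hXY⟩ := rep p hi i1
        exact ⟨X, Y, hXY.symm⟩
      · intro x y hxy
        have h1 := item_one (p := p) h2 h3 hi i1 hxy.symm
        refine ⟨?_, ?_⟩
        · rw [S0_eq]
          exact congr_of_Dv h1
        · have k := bm.sub h1
          have e : B p - p - (Pool.Agent.N926.F54.S0 p - (4*(x:ℚ)^2 - 2*p)) = 3 * (S1 p - (p - 4 * (x:ℚ)^2/3)) := by
            have := S1_eq p
            rw [S0_eq] at this
            linear_combination -this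
          rw [e] at k
          exact congr_of_Dv (k.of_unit_mul v3 (by norm_num))
    · intro h6
      obtain ⟨i, hi⟩ : ∃ i, h = 3*i+2 := ⟨h/3, by omega⟩
      have h1 := S0_five (p := p) h2 h3 hh hi
      have k := bm.sub h1
      have e : B p - p - Pool.Agent.N926.F54.S0 p = 3 * (S1 p - (p:ℚ)/3) := by
        have := S1_eq p
        rw [S0_eq] at this
        linear_combination -this
      rw [e] at k
      exact congr_of_Dv (k.of_unit_mul v3 (by norm_num))
    · intro a ha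
      obtain ⟨s, rfl⟩ : ∃ s, a = s + 1 := ⟨a - 1, by omega⟩
      obtain ⟨M, hM⟩ : Odd (p ^ (s + 1)) := (hp.out.odd_of_ne_two h2).pow
      have k := B_final (p := p) h2 h3 hM hh
      rw [cast_P hM] at k
      rw [← B_eq, hM]
      refine congr_of_Dv (Dv_eq ?_ k)
      ring
    · have k := half_euler (p := p) h2 h3 hh
      have e1 : ∑ k ∈ range ((p - 1) / 2 + 1), (3 * (k : ℚ) + 1) * (((2 * k).choose k : ℚ) ^ 3 / 16 ^ k) = B (h+1) := by
        rw [B_eq, show (p-1)/2 = h by omega]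
        refine sum_congr rfl fun k _ => ?_
        ring
      have e2 : (legendreSym p (-1) : ℚ) = (-1)^h := by
        rw [legendreSym.at_neg_one h2, ZMod.χ₄_eq_neg_one_pow (by omega), show p/2 = h by omega]
        push_cast
        rfl
      rw [e1, e2, euler_eq]
      exact congr_of_Dv k
  · intro n hn
    obtain ⟨m, hm⟩ := zz_dvd hn
    refine ⟨m, ?_⟩
    have h1 : B n = ∑ k ∈ range ((n-1)/2+1), GB n k := by
      rw [B_GB']
      symm
      apply sum_subset
      · intro k hk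
        rw [mem_range] at hk ⊢
        omega
      · intro k hk hk2
        rw [mem_range] at hk hk2
        unfold GB
        rw [if_neg (by omega)]
    have h4 : 4 * 16^(n-1) * B n = (n:ℚ) * Nat.centralBinom n * (8 * (m:ℤ)) := by
      rw [h1, mul_sum]
      have : ∀ k ∈ range ((n-1)/2+1), 4 * 16^(n-1) * GB n k = (n:ℚ) * Nat.centralBinom n * (zz n k : ℤ) := by
        intro k hk
        rw [mem_range] at hk
        exact GB_zz (by omega) (by omega)
      rw [sum_congr rfl this, ← mul_sum]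
      have hm2 := congrArg (fun z : ℤ => (z:ℚ)) hm
      push_cast at hm2
      rw [← hm2]
    have h5 : ∑ k ∈ range n, (3 * (k : ℚ) + 1) * ((2 * k).choose k : ℚ) ^ 3 * 16 ^ (n - 1 - k) = 16^(n-1) * B n := by
      rw [B_eq, mul_sum]
      refine sum_congr rfl fun k hk => ?_
      rw [mem_range] at hk
      have : (16:ℚ)^(n-1) = 16^(n-1-k) * 16^k := by rw [← pow_add]; congr 1; omega
      rw [this]
      field_simp
    have hc : ((2*n).choose n : ℚ) = Nat.centralBinom n := rfl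
    rw [h5, hc]
    have hn0 : (n:ℚ) ≠ 0 := by
      have : (2:ℚ) ≤ n := by exact_mod_cast hn
      positivity
    have hb : ((Nat.centralBinom n : ℕ) : ℚ) ≠ 0 := by
      have := Nat.centralBinom_pos n
      positivity
    field_simp
    linear_combination (1/4) * h4

end Pool.Agent.Results.MP_54d89f_nt.AllItems
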